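import Pool.Agent.Y94.R.Rn
set_option autoImplicit false

/-!
Integral elements of `K_2` at a real place of the hyperelliptic curves `C : y² = D(x)` of genus `g`
over a number field `K` for which the Pell equation `P² - D Q² = 1` has a solution with nonconstant
`P` (the difference of the two points at infinity is torsion) such that the coefficients of `2 P`
are algebraic integers and the leading coefficient of `2 P` is a unit: if `D` has a real zero at a
real place of `K` (that is, if `P` takes a real value in `(-1, 1)` at a real point), then over a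
number field `L ⊇ K` with a real place above it there are elements of the integral part of
`H²(C_L, ℚ(2))` whose regulators at this real place are a basis of `Hom(H_1(C(ℂ), ℤ)⁻, ℝ)`.
-/

namespace Pool.Agent.Results.MP_0a9c3b_nt.PellRealPlace

open Polynomial

open Pool.Agent.Y94.R

/-- Let `K` be a number field with an embedding `σ` into `ℝ`. Let `D ∈ K[x]` be squarefree of degree
`2 g + 2`, and let `P² - D Q² = 1`, where `P ∈ K[x]` is not constant, the coefficients of `2 P` are
algebraic integers and the inverse of the leading coefficient of `2 P` is an algebraic integer, too.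
Let `γ_l = (x_l, y_l)`, `1 ≤ l ≤ m`, be loops in the complex points of the curve `y² = D^σ(x)` with
`y_l ≠ 0` for which the vectors `(Im ∫ x^j dx / y)_{j < g}` are linearly independent over `ℝ`, that
is, for which the classes of `γ_l - conj(γ_l)` in `H_1(C(ℂ), ℝ)⁻` are linearly independent (thus
`m ≤ g`, and `m = g` is possible). Assume that the loops avoid a real point `β` with
`|P^σ(β)| < 1` (such points `β` exist if and only if `D^σ` has a real zero).

Then there are a number field `L ⊆ ℝ` that contains `σ(K)` and `m + 1` algebraic integers `b_i ∈ L`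
such that all `2 P(b_i)` are sums `ζ + 1/ζ` with roots of unity `ζ`, such that the symbols
`{P(x) + Q(x) y, (x - b_i) / (x - b_j)}` in `K_2` of the function field of the curve `y² = D(x)`
over `L` are unramified at all discrete valuations of the function field (also at those that are
not trivial on `L`), and such that the `m` vectors of the regulators of the symbols
`{P(x) + Q(x) y, (x - b_i) / (x - b_0)}`, `1 ≤ i ≤ m`, on the loops are linearly independent over
`ℝ`. -/
theorem result.{u} (K : Type*) [Field K] [NumberField K] (σ : K →+* ℝ) (g : ℕ) (D P Q r : K[X])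
    (h : PellEq g D P Q r) (hP : IntegralPell P) (m : ℕ)
    (γ : Fin m → Lp (D.map (Complex.ofRealHom.comp σ))) (hγ : IndepImPeriods g γ)
    (β : ℝ) (hβ : |P.eval₂ σ β| < 1) (hoff : ∀ l t, (γ l).x t ≠ β) :
    m ≤ g ∧
    ∃ (L : IntermediateField ℚ ℝ) (j : K →+* L) (b : Fin (m + 1) → L)
      (hL : P.map j ^ 2 - D.map j * Q.map j ^ 2 = 1),
      FiniteDimensional ℚ L ∧ (∀ x : K, (j x : ℝ) = σ x) ∧ (∀ i, IsIntegral ℤ (b i)) ∧
      (∀ i, Special (P.map (Complex.ofRealHom.comp σ)) (b i : ℝ)) ∧
      IsDomain (HRing (D.map j)) ∧ AllUnramified.{0, u} hL b ∧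
      IndepRegulators hL (Complex.ofRealHom.comp (algebraMap L ℝ)) b γ := by
  refine ⟨hγ.le, ?_⟩
  have hD := h.squarefree_map (Complex.ofRealHom.comp σ)
  have hp := h.pell (Complex.ofRealHom.comp σ)
  have hrg := h.natDegree_r (Complex.ofRealHom.comp σ)
  have hPβ : ((P.map (Complex.ofRealHom.comp σ)).eval (β : ℂ)).re = P.eval₂ σ β := by
    have h1 : (P.map (Complex.ofRealHom.comp σ)).eval (β : ℂ) = Complex.ofRealHom ((P.map σ).eval β) := by
      rw [← Polynomial.map_map]
      exact eval_map_apply Complex.ofRealHom β
    rw [h1, eval_map]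
    exact Complex.ofReal_re _
  obtain ⟨b₀, hb1, hb2, hb3⟩ := core_real γ hp hD (map_conj_ofReal σ D) (map_conj_ofReal σ P)
    (map_conj_ofReal σ r) (b₀ := β) (fun l t ht => hoff l t (sub_eq_zero.1 ht))
    (by rw [hPβ]; exact hβ) (fun c hc => by
      rw [hrg]
      exact imPeriods γ hγ c hc)
  have hbint : ∀ i, IsIntegral ℤ (b₀ i) := fun i =>
    isIntegral_ofReal (hP.isIntegral h.pos (Complex.ofRealHom.comp σ) (hb2 i))
  obtain ⟨L, j, b, hfin, hj, hb, hbi⟩ := exists_field σ b₀ hbint
  have hsj : (Complex.ofRealHom.comp (algebraMap L ℝ)).comp j = (Complex.ofRealHom.comp σ) := by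
    ext x
    exact congrArg (fun t : ℝ => (t : ℂ)) (hj x)
  have hsb : ∀ i, (Complex.ofRealHom.comp (algebraMap L ℝ)) (b i) = b₀ i := fun i =>
    congrArg (fun t : ℝ => (t : ℂ)) (hb i)
  obtain ⟨hL, hdom, hunr⟩ := h.assemble hP j (Complex.ofRealHom.comp (algebraMap L ℝ)) b hbi
    fun i => by
      rw [hsj, hsb]
      exact hb2 i
  refine ⟨L, j, b, hL, hfin, hj, hbi, fun i => ?_, hdom, hunr, ?_⟩
  · rw [hb]
    exact hb2 i
  · refine indepRegulators hL (r := r.map j) hp ?_ ?_ ?_ ?_ b (fun k l => ?_) ?_
    · rw [Polynomial.map_map, hsj]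
    · rw [Polynomial.map_map, hsj]
    · rw [Polynomial.map_map, hsj]
    · rw [Polynomial.map_map, hsj]
    · rw [hsb]
      exact hb1 k l
    · simp only [hsb]
      exact hb3

end Pool.Agent.Results.MP_0a9c3b_nt.PellRealPlace
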