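import Pool.Agent.Y775.UN.Loop
set_option autoImplicit false

/-!
Integral `K_2` of elliptic curves over arbitrary number fields `K` with infinitely many units: for
*every* unit `w` of `K` that is not a root of unity, the elliptic curve `z + 1/z = w x² - w - 1/w` has
two unramified symbols whose regulators on a loop at each of two places, real or complex, with
`|w| > 1` and `|w| < 1`, have nonzero determinant.
-/

namespace Pool.Agent.Results.MP_0a9c3b_nt.UnitsEveryNumberField

open NumberField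

open Pool.Agent.TH690.UE

open Pool.Agent.Y775.UN

/-- Let `K` be any number field and `w` a unit of its ring of integers that is not a root of unity
(by Dirichlet's theorem there are such units unless `K` is the field of rational numbers or an
imaginary quadratic field). Then there are embeddings `s₁`, `s₂` of `K` in `ℂ` with `|s₁ w| > 1` and
`|s₂ w| < 1`; and for all such `s₁`, `s₂` the following (`TwoClasses`) holds, with
`F = w x² - w - 1/w`, `p = 1 + 1/w` and `q = 1 - 1/w`: the coordinate ring of the plane curve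
`z² - F(x) z + 1 = 0` over `K` is a domain, the curve is smooth at its complex points over `s₁` and
`s₂`, all symbols `{z, (x - b) / (x - b')}`, `b, b' ∈ {± p, ± q}`, are unramified at all discrete
valuations of the function field, and there are a loop in the complex points over `s₁` and a loop in
the complex points over `s₂` of the open part `(x² - p²) (x² - q²) ≠ 0` of the curve such that the
determinant of the regulators of the two symbols `{z, (x - p) / (x + p)}`, `{z, (x - q) / (x + q)}`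
on the two loops does not vanish. -/
theorem result.{u, v} (K : Type u) [Field K] [NumberField K] (w : (𝓞 K)ˣ)
    (hw : ∀ n : ℕ, n ≠ 0 → w ^ n ≠ 1) :
    (∃ s₁ : K →+* ℂ, 1 < ‖s₁ w‖) ∧ (∃ s₂ : K →+* ℂ, ‖s₂ w‖ < 1) ∧
    ∀ s₁ s₂ : K →+* ℂ, 1 < ‖s₁ w‖ → ‖s₂ w‖ < 1 →
      TwoClasses.{u, v} (qf (w : K) (-((w : K) + (w : K)⁻¹)))
        (pts (1 + (w : K)⁻¹) (1 - (w : K)⁻¹)) ![s₁, s₂] := by
  have hw0 : (w : K) ≠ 0 := NumberField.Units.coe_ne_zero w
  have iw : IsIntegral ℤ (w : K) := RingOfIntegers.isIntegral_coe _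
  have hinv : ((w⁻¹ : (𝓞 K)ˣ) : K) = (w : K)⁻¹ := by
    refine eq_inv_of_mul_eq_one_left ?_
    rw [← map_mul, ← Units.val_mul, inv_mul_cancel, Units.val_one, map_one]
  have iw' : IsIntegral ℤ (w : K)⁻¹ := by
    rw [← hinv]
    exact RingOfIntegers.isIntegral_coe _
  have hroot : ∀ x : (𝓞 K)ˣ, (∀ s : K →+* ℂ, ‖s x‖ ≤ 1) → ∃ n : ℕ, n ≠ 0 ∧ x ^ n = 1 := by
    intro x hx
    obtain ⟨n, hn, h⟩ := Embeddings.pow_eq_one_of_norm_le_one K ℂ
      (NumberField.Units.coe_ne_zero x) (RingOfIntegers.isIntegral_coe _) hx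
    refine ⟨n, hn.ne', ?_⟩
    apply Units.ext
    apply RingOfIntegers.ext
    rw [Units.val_pow_eq_pow_val, Units.val_one]
    have h2 : (algebraMap (𝓞 K) K) ((x : 𝓞 K) ^ n) = (algebraMap (𝓞 K) K) 1 := by
      rw [map_pow, map_one]
      exact h
    exact h2
  refine ⟨?_, ?_, ?_⟩
  · by_contra hcon
    push Not at hcon
    obtain ⟨n, hn, h⟩ := hroot w hcon
    exact hw n hn h
  · by_contra hcon
    push Not at hcon
    obtain ⟨n, hn, h⟩ := hroot w⁻¹ fun s => by
      rw [hinv, map_inv₀, norm_inv]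
      exact inv_le_one_of_one_le₀ (hcon s)
    exact hw n hn (by rw [← inv_inj, ← inv_pow, h, inv_one])
  intro s₁ s₂ h₁ h₂
  obtain ⟨v1, v2⟩ := val_unit hw0
  have ht : ∀ ε : K, ε = 1 ∨ ε = -1 → -((w : K) + (w : K)⁻¹) ≠ 2 * ε := by
    intro ε hε h
    have hε2 : ε ^ 2 = 1 := by
      rcases hε with h | h <;> rw [h] <;> norm_num
    have h3 : ((w : K) + ε) ^ 2 = 0 := by
      have h4 : (w : K) * (w : K)⁻¹ = 1 := mul_inv_cancel₀ hw0
      linear_combination (-(w : K)) * h - h4 + hε2
    have h5 : (w : K) = -ε := by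
      have := pow_eq_zero_iff two_ne_zero |>.1 h3
      linear_combination this
    have h6 := h₁
    rw [h5] at h6
    rcases hε with h | h <;> rw [h] at h6 <;> norm_num at h6
  have hmem : ∀ s : K →+* ℂ, s (-((w : K) + (w : K)⁻¹)) = -(s w + (s w)⁻¹) ∧
      s (1 + (w : K)⁻¹) = 1 + (s w)⁻¹ ∧ s (1 - (w : K)⁻¹) = 1 - (s w)⁻¹ ∧
      s (-(1 - (w : K)⁻¹)) = -(1 - (s w)⁻¹) := by
    intro s
    simp
  have sp : ∀ s : K →+* ℂ, Special s ((w : K) * (1 + (w : K)⁻¹) ^ 2 + -((w : K) + (w : K)⁻¹)) :=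
    fun s => by rw [v1]; exact special_two _
  have sq : ∀ s : K →+* ℂ, Special s ((w : K) * (1 - (w : K)⁻¹) ^ 2 + -((w : K) + (w : K)⁻¹)) :=
    fun s => by rw [v2]; exact special_neg_two _
  refine twoClasses_loops hw0 (by simpa using ht 1 (Or.inl rfl)) (by simpa using ht (-1) (Or.inr rfl))
    iw (iw.add iw').neg (isIntegral_one.add iw') (isIntegral_one.sub iw') (fun l => sp _)
    (fun l => sq _) ?_ ?_
  · obtain ⟨V, Y, h⟩ := exists_half h₁
    obtain ⟨e1, e2, e3, e4⟩ := hmem s₁
    refine exists_loop_half (s := s₁) (V := V) (Y := Y) ?_ hw0 (sp s₁).spc (sq s₁).spc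
    rw [e1, e2, e3]
    exact h
  · obtain ⟨V, Y, h⟩ := exists_half' ((map_ne_zero s₂).2 hw0) h₂
    obtain ⟨e1, e2, e3, e4⟩ := hmem s₂
    refine exists_loop_half (s := s₂) (V := V) (Y := Y) ?_ hw0 (sp s₂).spc ?_
    · rw [e1, e2, e4]
      exact h
    · rw [neg_sq]
      exact (sq s₂).spc

end Pool.Agent.Results.MP_0a9c3b_nt.UnitsEveryNumberField
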